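import Pool.Agent.Helper30.LK.St

/-!
# Project LK (MP_2d2425_nt), module DVQ: divisors of `σ(m ^ 2)` and `σ(2 m ^ 2)`
-/

set_option autoImplicit false

noncomputable section

namespace Pool.Agent.Helper53.LK

open Finset ArithmeticFunction Filter
open Pool.Agent.Helper30.LK
open Pool.Agent.Helper18.TR (StFL)
open Pool.Agent.Helper15.AB (StMT)
open Pool.Agent.Helper48.BK (StSW th)
open Pool.Agent.Helper30.PB (StPRP StPIP)

private theorem sig_dvd {p r q : ℕ} (hp : p.Prime) (hq : q ∣ p ^ 2 + p + 1) (hc : Nat.Coprime (p ^ 2) r) :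
    q ∣ sigma 1 (p ^ 2 * r) := by
  rw [isMultiplicative_sigma.map_mul_of_coprime hc, sigma_one_apply_prime_pow hp]
  refine Dvd.dvd.mul_right ?_ _
  have : ∑ k ∈ range (2 + 1), p ^ k = p ^ 2 + p + 1 := by
    simp only [Finset.sum_range_succ, Finset.sum_range_zero]
    ring
  rw [this]
  exact hq

theorem hDVQ : StDVQ := by
  refine ⟨?_, ?_⟩
  · intro q p m hp hp2 hq hpm hpm2
    obtain ⟨m', rfl⟩ := hpm
    have hm' : ¬ p ∣ m' := by
      rintro ⟨t, rfl⟩
      exact hpm2 ⟨t, by ring⟩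
    have hc1 : Nat.Coprime p m' := (Nat.Prime.coprime_iff_not_dvd hp).mpr hm'
    have hc2 : Nat.Coprime p 2 := by
      rw [Nat.Prime.coprime_iff_not_dvd hp]
      intro h
      exact hp2 ((Nat.prime_dvd_prime_iff_eq hp Nat.prime_two).mp h)
    constructor
    · have e : (p * m') ^ 2 = p ^ 2 * m' ^ 2 := by ring
      rw [e]
      exact sig_dvd hp hq (Nat.Coprime.pow 2 2 hc1)
    · have e : 2 * (p * m') ^ 2 = p ^ 2 * (2 * m' ^ 2) := by ring
      rw [e]
      refine sig_dvd hp hq ?_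
      exact Nat.Coprime.mul_right (Nat.Coprime.pow_left 2 hc2) (Nat.Coprime.pow 2 2 hc1)
  · intro m hm
    obtain ⟨a, m', hodd, rfl⟩ := Nat.exists_eq_two_pow_mul_odd (n := m) (by omega)
    have e : 2 * (2 ^ a * m') ^ 2 = 2 ^ (2 * a + 1) * m' ^ 2 := by ring
    have hc : Nat.Coprime (2 ^ (2 * a + 1)) (m' ^ 2) := by
      refine Nat.Coprime.pow _ _ ?_
      exact (Nat.coprime_two_left).mpr hodd
    rw [e, isMultiplicative_sigma.map_mul_of_coprime hc, sigma_one_apply_prime_pow Nat.prime_two]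
    refine Dvd.dvd.mul_right ?_ _
    clear hc e hm hodd
    induction a with
    | zero => decide
    | succ a ih =>
      have e1 : 2 * (a + 1) + 1 + 1 = (2 * a + 1 + 1) + 1 + 1 := by ring
      rw [e1, Finset.sum_range_succ, Finset.sum_range_succ, add_assoc]
      refine (Nat.dvd_add_iff_right ih).mp ?_
      have e2 : 2 ^ (2 * a + 1 + 1) + 2 ^ (2 * a + 1 + 1 + 1) = 3 * 2 ^ (2 * a + 1 + 1) := by ring
      rw [e2]
      exact Nat.dvd_mul_right _ _

end Pool.Agent.Helper53.LK
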